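import Pool.Agent.Lib.HFC.DecK
import Pool.Agent.Lib.HFC.S12

/-!
# Complexity of hyperfiniteness (MP_3091e6_lc)

Let `Cls m` be the smallest class of relations which contains the equivalence relations with
finite classes of level `m` of the hierarchy of C-sets (level `1` is the σ-algebra generated by
the analytic sets), the unions of the increasing sequences of its elements, and every countable
Borel equivalence relation `E` such that for some analytic sets `A k` the class contains the
restrictions of `E` to all the invariant Borel sets on which all the sets `A k` are Borel.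
If for some `m` the class `Cls m` contains a countable Borel equivalence relation which is not
hyperfinite, then the set `HF` of the codes of the hyperfinite countable Borel equivalence
relations on the Baire space is `Σ¹₂`-complete.
-/

set_option autoImplicit false

namespace Pool.Agent.Results.MP_3091e6_lc.CMeasurable

/-- The Baire space. -/
abbrev Baire : Type := ℕ → ℕ

/-! ### Countable Borel equivalence relations and hyperfiniteness -/

/-- `E` is a countable Borel equivalence relation. -/
def IsCBER {X : Type} [MeasurableSpace X] (E : X → X → Prop) : Prop :=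
  Equivalence E ∧ MeasurableSet {p : X × X | E p.1 p.2} ∧ ∀ x, {y | E x y}.Countable

/-- `E` is hyperfinite: the union of an increasing sequence of Borel equivalence relations with
finite classes. -/
def IsHyperfinite {X : Type} [MeasurableSpace X] (E : X → X → Prop) : Prop :=
  ∃ F : ℕ → X → X → Prop, (∀ n, Equivalence (F n)) ∧ (∀ n x, {y | F n x y}.Finite) ∧
    (∀ n, MeasurableSet {p : X × X | F n p.1 p.2}) ∧ (∀ n x y, F n x y → F (n + 1) x y) ∧
      ∀ x y, E x y ↔ ∃ n, F n x y

/-! ### The finite levels of the hierarchy of C-sets -/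

/-- The result of the Souslin operation applied to the sets `P s`, `s` a finite sequence (the
finite sequences are written in the reverse order, `PiNat.res u n = [u (n - 1), ..., u 0]`). -/
def souslin {Z : Type} (P : List ℕ → Set Z) : Set Z :=
  {z | ∃ u : ℕ → ℕ, ∀ n, z ∈ P (PiNat.res u n)}

/-- Level `0` is the Borel σ-algebra, level `m + 1` is the σ-algebra generated by the results of
the Souslin operation applied to sets of level `m`. So level `1` is the σ-algebra generated by the
analytic sets. -/
@[reducible] def level (Z : Type) [m0 : MeasurableSpace Z] : ℕ → MeasurableSpace Z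
  | 0 => m0
  | m + 1 => MeasurableSpace.generateFrom
      {S | ∃ P : List ℕ → Set Z, (∀ s, @MeasurableSet Z (level Z m) (P s)) ∧ S = souslin P}

/-- `A` is an analytic set: the projection of a Borel subset of `Z × Baire`. -/
def IsAnalytic {Z : Type} [MeasurableSpace Z] (A : Set Z) : Prop :=
  ∃ B : Set (Z × Baire), MeasurableSet B ∧ A = {z | ∃ u, (z, u) ∈ B}

/-- The restriction of the relation `E` to the set `Z`, extended by the equality. -/
def restr {X : Type} (Z : Set X) (E : X → X → Prop) : X → X → Prop :=
  fun x y => x = y ∨ (x ∈ Z ∧ y ∈ Z ∧ E x y)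

/-- The smallest class of relations on `X` which
(1) contains all equivalence relations of level `m` with finite classes,
(2) contains the unions of all increasing sequences of its elements,
(3) contains every countable Borel equivalence relation `E` such that for some analytic sets
`A k ⊆ X × X` the class contains `restr Z E` for all Borel `E`-invariant sets `Z ⊆ X` for which
all the sets `A k ∩ {(x, y) | x ∈ Z, E x y}` are Borel. -/
inductive Cls {X : Type} [MeasurableSpace X] (m : ℕ) : (X → X → Prop) → Prop
  | finite (F : X → X → Prop) (h1 : Equivalence F) (h2 : ∀ x, {y | F x y}.Finite)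
      (h3 : @MeasurableSet (X × X) (level (X × X) m) {p : X × X | F p.1 p.2}) : Cls m F
  | union (F : ℕ → X → X → Prop) (h : ∀ n, Cls m (F n))
      (hm : ∀ n x y, F n x y → F (n + 1) x y) : Cls m fun x y => ∃ n, F n x y
  | decide (E : X → X → Prop) (hE : IsCBER E) (A : ℕ → Set (X × X)) (hA : ∀ k, IsAnalytic (A k))
      (h : ∀ Z : Set X, MeasurableSet Z → (∀ x y, E x y → x ∈ Z → y ∈ Z) →
        (∀ k, MeasurableSet (A k ∩ {p : X × X | p.1 ∈ Z ∧ E p.1 p.2})) → Cls m (restr Z E)) :
      Cls m E

/-! ### Borel codes and `Σ¹₂` sets -/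

/-- The `k`-th basic clopen set of the square of the Baire space: `k` codes a pair `(s, t)` of
finite sequences, and the set consists of the pairs of extensions of `s` and `t`. -/
def basic (k : ℕ) : Set (Baire × Baire) :=
  {p | PiNat.res p.1 (Denumerable.ofNat (List ℕ × List ℕ) k).1.length =
      (Denumerable.ofNat (List ℕ × List ℕ) k).1 ∧
    PiNat.res p.2 (Denumerable.ofNat (List ℕ × List ℕ) k).2.length =
      (Denumerable.ofNat (List ℕ × List ℕ) k).2}

/-- Borel codes: `Codes c B` says that `c` is a code of the set `B`. -/
inductive Codes : Baire → Set (Baire × Baire) → Prop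
  | basic (c : Baire) (h : c 0 = 0) : Codes c (basic (c 1))
  | compl (c : Baire) (B : Set (Baire × Baire)) (h : c 0 = 1)
      (hB : Codes (fun k => c (k + 1)) B) : Codes c Bᶜ
  | union (c : Baire) (B : ℕ → Set (Baire × Baire)) (h : 2 ≤ c 0)
      (hB : ∀ n, Codes (fun k => c (Nat.pair n k + 1)) (B n)) : Codes c (⋃ n, B n)

/-- The set `HF` of the codes of the hyperfinite countable Borel equivalence relations on the
Baire space. -/
def HF : Set Baire :=
  {c | ∃ E : Baire → Baire → Prop, Codes c {p | E p.1 p.2} ∧ IsCBER E ∧ IsHyperfinite E}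

/-- `S` is a `Σ¹₂` set: the projection of the complement of an analytic set. -/
def IsSigma12 (S : Set Baire) : Prop :=
  ∃ C : Set (Baire × Baire), IsAnalytic C ∧ S = {y | ∃ z, (y, z) ∉ C}

/-- `S` is `Σ¹₂`-complete. -/
def IsSigma12Complete (S : Set Baire) : Prop :=
  IsSigma12 S ∧ ∀ A : Set Baire, IsSigma12 A → ∃ f : Baire → Baire, Continuous f ∧ A = f ⁻¹' S

/-! ### Translation to the definitions of the library -/

theorem cber_iff {X : Type} [MeasurableSpace X] (E : X → X → Prop) :
    IsCBER E ↔ Pool.Agent.Lib.HFC.CBER E :=
  ⟨fun h => ⟨h.1, h.2.1, h.2.2⟩, fun h => ⟨h.equiv, h.meas, h.ctbl⟩⟩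

theorem hf_iff {X : Type} [MeasurableSpace X] (E : X → X → Prop) :
    IsHyperfinite E ↔ Pool.Agent.Lib.HFC.HF E := by
  constructor
  · rintro ⟨F, h1, h2, h3, h4, h5⟩
    exact ⟨F, ⟨h1, h2, h4, h5⟩, h3⟩
  · rintro ⟨F, hF, h3⟩
    exact ⟨F, hF.equiv, hF.fin, h3, hF.mono, hF.union⟩

theorem level_eq (Z : Type) [MeasurableSpace Z] (m : ℕ) :
    level Z m = Pool.Agent.Lib.HFC.CC Z m := by
  induction m with
  | zero => rfl
  | succ m ih =>
    show MeasurableSpace.generateFrom {S | ∃ P : List ℕ → Set Z,
      (∀ s, @MeasurableSet Z (level Z m) (P s)) ∧ S = souslin P} = _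
    rw [ih]
    rfl

theorem cls_kk {X : Type} [MeasurableSpace X] {m : ℕ} {E : X → X → Prop} (h : Cls m E) :
    Pool.Agent.Lib.HFC.KK m E := by
  induction h with
  | finite F h1 h2 h3 =>
    rw [level_eq] at h3
    exact Pool.Agent.Lib.HFC.KK.fin F h1 h2 h3
  | union F _ hm ih => exact Pool.Agent.Lib.HFC.KK.union F ih hm
  | decide E hE A hA _ ih => exact Pool.Agent.Lib.HFC.KK.dec E ((cber_iff E).1 hE) A hA ih

theorem codes_iff (c : Baire) (B : Set (Baire × Baire)) :
    Codes c B ↔ Pool.Agent.Lib.HFC.Codes c B := by
  constructor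
  · intro h
    induction h with
    | basic c h => exact Pool.Agent.Lib.HFC.Codes.basic c h
    | compl c B h _ ih => exact Pool.Agent.Lib.HFC.Codes.compl c B h ih
    | union c B h _ ih => exact Pool.Agent.Lib.HFC.Codes.union c B h ih
  · intro h
    induction h with
    | basic c h => exact Codes.basic c h
    | compl c B h _ ih => exact Codes.compl c B h ih
    | union c B h _ ih => exact Codes.union c B h ih

theorem hfcodes_eq : HF = Pool.Agent.Lib.HFC.HFCodes := by
  ext c
  constructor
  · rintro ⟨E, h1, h2, h3⟩
    exact ⟨E, (codes_iff _ _).1 h1, (cber_iff E).1 h2, (hf_iff E).1 h3⟩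
  · rintro ⟨E, h1, h2, h3⟩
    exact ⟨E, (codes_iff _ _).2 h1, (cber_iff E).2 h2, (hf_iff E).2 h3⟩

theorem sigma12_iff (S : Set Baire) : IsSigma12 S ↔ Pool.Agent.Lib.HFC.Sigma12 S := Iff.rfl

/-! ### The theorem -/

/-- **Theorem.** Suppose that a countable Borel equivalence relation `E` on a standard Borel space
is not hyperfinite, but belongs to the class `Cls m` for some `m` (e.g. `E` is the union of an
increasing sequence of finite equivalence relations in the σ-algebra generated by the analytic
sets). Then `HF` is `Σ¹₂`-complete. -/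
theorem result {X : Type} [MeasurableSpace X] [StandardBorelSpace X] (E : X → X → Prop)
    (hE : IsCBER E) (hn : ¬ IsHyperfinite E) (m : ℕ) (hU : Cls m E) :
    IsSigma12Complete HF := by
  rw [IsSigma12Complete, hfcodes_eq]
  refine ⟨(sigma12_iff _).2 Pool.Agent.Lib.HFC.hfcodes_sigma12, fun A hA => ?_⟩
  exact Pool.Agent.Lib.HFC.kk_hard m ((cber_iff E).1 hE) (cls_kk hU)
    (fun h => hn ((hf_iff E).2 h)) A ((sigma12_iff A).1 hA)

end Pool.Agent.Results.MP_3091e6_lc.CMeasurable
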